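import Mathlib
import Pool.Agent.Y520.AR.Stm

/-! # Project AR: blow-up in finite time (helper182) -/

set_option autoImplicit false

namespace Pool.Agent.Y182.AR

open Pool.Agent.Y520.AR

theorem blowup (f : ℝ → ℝ) (n : ℕ) (hmono : Monotone f) (h0 : f 0 = 1) (hn : n = 2 ∨ n = 3)
    (c' t₀ : ℝ) (hc' : 0 < c') (hgr : ∀ t, t₀ ≤ t → c' * t ^ 5 ≤ f t) (c M₀ : ℝ) (hc : 0 < c)
    (H : ∀ t M, M₀ ≤ t → t < M → M ≤ t + 1 →
      c * (M - t) ^ (2 * n) * f t ^ 7 ≤ f M ^ (2 * n) * t ^ 3) : False := by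
  set T : ℝ := max (max M₀ t₀) (max 1 (8 * 64 ^ 7 / (c * c'))) with hT
  have hT1 : 1 ≤ T := (le_max_left _ _).trans (le_max_right _ _)
  have hTM : M₀ ≤ T := (le_max_left _ _).trans (le_max_left _ _)
  have hTt : t₀ ≤ T := (le_max_right _ _).trans (le_max_left _ _)
  have hTc : 8 * 64 ^ 7 / (c * c') ≤ T := (le_max_right _ _).trans (le_max_right _ _)
  have hcc : 0 < c * c' := mul_pos hc hc'
  rw [div_le_iff₀ hcc] at hTc
  have hbig : 64 ^ 7 * (T + 1) ^ 3 ≤ c * f T := by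
    have h1 := hgr T hTt
    have h2 : (T + 1) ^ 3 ≤ 8 * T ^ 3 := by
      have : T + 1 ≤ 2 * T := by linarith
      calc (T + 1) ^ 3 ≤ (2 * T) ^ 3 := pow_le_pow_left₀ (by linarith) this 3
        _ = 8 * T ^ 3 := by ring
    have h3 : (8 * 64 ^ 7 : ℝ) ≤ c * c' * T ^ 2 := by
      have h4 : T ≤ T ^ 2 := by nlinarith
      calc (8 * 64 ^ 7 : ℝ) ≤ T * (c * c') := hTc
        _ ≤ T ^ 2 * (c * c') := mul_le_mul_of_nonneg_right h4 hcc.le
        _ = _ := by ring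
    calc 64 ^ 7 * (T + 1) ^ 3 ≤ 64 ^ 7 * (8 * T ^ 3) := by gcongr
      _ = (8 * 64 ^ 7) * T ^ 3 := by ring
      _ ≤ (c * c' * T ^ 2) * T ^ 3 := mul_le_mul_of_nonneg_right h3 (by positivity)
      _ = c * (c' * T ^ 5) := by ring
      _ ≤ c * f T := mul_le_mul_of_nonneg_left h1 hc.le
  have hf1 : ∀ t, 0 ≤ t → 1 ≤ f t := fun t ht => by rw [← h0]; exact hmono ht
  set u : ℕ → ℝ := fun i => T + 1 - (1 / 2) ^ i with hu
  have hpow : ∀ i : ℕ, (0 : ℝ) < (1 / 2) ^ i := fun i => by positivity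
  have hpow1 : ∀ i : ℕ, ((1 : ℝ) / 2) ^ i ≤ 1 := fun i => pow_le_one₀ (by norm_num) (by norm_num)
  have huT : ∀ i, T ≤ u i := fun i => by simp only [hu]; linarith [hpow1 i]
  have huT1 : ∀ i, u i ≤ T + 1 := fun i => by simp only [hu]; linarith [hpow i]
  have hstep : ∀ i, u (i + 1) - u i = (1 / 2) ^ (i + 1) := fun i => by
    simp only [hu]; rw [pow_succ]; ring
  have hu0 : u 0 = T := by simp [hu]
  have claim : ∀ i, f T * 64 ^ i ≤ f (u i) := by
    intro i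
    induction i with
    | zero => rw [hu0, pow_zero, mul_one]
    | succ i ih =>
      have hfi : 1 ≤ f (u i) := hf1 _ (by linarith [huT i])
      have h1 := H (u i) (u (i + 1)) (hTM.trans (huT i)) (by linarith [hstep i, hpow (i + 1)])
        (by linarith [hstep i, hpow1 (i + 1)])
      rw [hstep] at h1
      have h2 : f (u i) ^ (2 * n) * f (u i) ≤ f (u i) ^ 7 := by
        rw [← pow_succ]
        exact pow_le_pow_right₀ hfi (by omega)
      have h3 : ((1 : ℝ) / 64) ^ (i + 1) ≤ ((1 / 2) ^ (i + 1)) ^ (2 * n) := by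
        rw [← pow_mul, mul_comm (i + 1) (2 * n), pow_mul]
        refine pow_le_pow_left₀ (by norm_num) ?_ _
        rcases hn with rfl | rfl <;> norm_num
      have h4 : 0 ≤ f (u (i + 1)) := le_trans zero_le_one (hf1 _ (by linarith [huT (i + 1)]))
      have h5 : (u i) ^ 3 ≤ (T + 1) ^ 3 :=
        pow_le_pow_left₀ (by linarith [huT i]) (huT1 i) 3
      have h6 : c * (1 / 64) ^ (i + 1) * (f (u i) ^ (2 * n) * f (u i)) ≤
          f (u (i + 1)) ^ (2 * n) * (T + 1) ^ 3 := by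
        calc c * (1 / 64) ^ (i + 1) * (f (u i) ^ (2 * n) * f (u i))
            ≤ c * ((1 / 2) ^ (i + 1)) ^ (2 * n) * f (u i) ^ 7 := by gcongr
          _ ≤ f (u (i + 1)) ^ (2 * n) * u i ^ 3 := h1
          _ ≤ _ := mul_le_mul_of_nonneg_left h5 (by positivity)
      have h7 : c * (1 / 64) ^ (i + 1) * (f (u i) ^ (2 * n) * (f T * 64 ^ i)) ≤
          f (u (i + 1)) ^ (2 * n) * (T + 1) ^ 3 := by
        refine le_trans ?_ h6
        gcongr
      have h8 : c * (1 / 64) ^ (i + 1) * (f (u i) ^ (2 * n) * (f T * 64 ^ i)) =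
          (c * f T / 64) * f (u i) ^ (2 * n) := by
        have : ((1 : ℝ) / 64) ^ (i + 1) * 64 ^ i = 1 / 64 := by
          rw [pow_succ, mul_right_comm, ← mul_pow]
          norm_num
        calc c * (1 / 64) ^ (i + 1) * (f (u i) ^ (2 * n) * (f T * 64 ^ i))
            = c * f T * f (u i) ^ (2 * n) * ((1 / 64) ^ (i + 1) * 64 ^ i) := by ring
          _ = _ := by rw [this]; ring
      rw [h8] at h7
      have h9 : (64 : ℝ) ^ 6 * (T + 1) ^ 3 ≤ c * f T / 64 := by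
        rw [le_div_iff₀ (by norm_num)]
        calc (64 : ℝ) ^ 6 * (T + 1) ^ 3 * 64 = 64 ^ 7 * (T + 1) ^ 3 := by ring
          _ ≤ _ := hbig
      have hT3 : 0 < (T + 1) ^ 3 := by positivity
      have h10 : (64 : ℝ) ^ (2 * n) ≤ 64 ^ 6 := pow_le_pow_right₀ (by norm_num) (by omega)
      have h11 : (64 * f (u i)) ^ (2 * n) ≤ f (u (i + 1)) ^ (2 * n) := by
        refine le_of_mul_le_mul_right ?_ hT3
        calc (64 * f (u i)) ^ (2 * n) * (T + 1) ^ 3
            = 64 ^ (2 * n) * (T + 1) ^ 3 * f (u i) ^ (2 * n) := by rw [mul_pow]; ring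
          _ ≤ 64 ^ 6 * (T + 1) ^ 3 * f (u i) ^ (2 * n) := by gcongr
          _ ≤ (c * f T / 64) * f (u i) ^ (2 * n) := by gcongr
          _ ≤ _ := h7
      have h12 : 64 * f (u i) ≤ f (u (i + 1)) :=
        le_of_pow_le_pow_left₀ (by omega) h4 h11
      calc f T * 64 ^ (i + 1) = 64 * (f T * 64 ^ i) := by ring
        _ ≤ 64 * f (u i) := by gcongr
        _ ≤ _ := h12
  have hfT : 1 ≤ f T := hf1 T (by linarith)
  obtain ⟨i, hi⟩ := pow_unbounded_of_one_lt (f (T + 1)) (by norm_num : (1 : ℝ) < 64)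
  have h1 := claim i
  have h2 : f (u i) ≤ f (T + 1) := hmono (huT1 i)
  have h3 : (64 : ℝ) ^ i ≤ f T * 64 ^ i := by
    have : (0 : ℝ) < 64 ^ i := by positivity
    nlinarith
  linarith

theorem t_GR3 : S_GR3 := by
  rintro f n hf hn ⟨c', t₀, hc', hgr⟩ ⟨c, M₀, hc, H⟩
  exact blowup f n hf.increasing.monotone hf.at_zero hn c' t₀ hc' hgr c M₀ hc H

end Pool.Agent.Y182.AR
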